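import Mathlib
import Pool.Agent.H8EM.Main
import Pool.Agent.V1168.EV.Rel

/-!
# The finite generation conjecture of Flach and Morin, for products of arbitrary varieties with
abelian varieties outside of finitely many lines of slope vectors, over finite fields

Let `K i` (`i` in a finite set) be CM fields with pair flips (`PairFlips`): for any two complex
embeddings `φ` of `K i` and `ψ` of `K k` (with `i = k` or not) which are neither equal nor complex
conjugate, some automorphism of `ℂ` is the identity on `φ (K i)` and the complex conjugation on
`ψ (K k)`. We fix an isomorphism `ν` of the algebraic closure of `ℚ_p` with `ℂ`; it defines a `p`-adic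
valuation `v` of `ℂ` with `v p = 1`. The slope vector of a Weil number `π` for `p ^ a` in `K i` is the
function `2 v (φ π) - a` on the complex embeddings `φ` of `K i` (`slopeVector`); it is odd.

Let `π i` be Weil numbers for `q = p ^ a` in `K i` with nonzero slope vectors, and let `f i` be monic
polynomials whose complex roots are conjugates of `π i` (`IsPolyOf`), for instance the characteristic
polynomials of Frobenius of the abelian varieties in the isogeny classes of the `π i` over the field
with `q` elements. Let `A` be an abelian variety over the field with `Q = q ^ s` elements which is
isogenous to a product of powers of abelian varieties coming from the field with `q` elements, with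
characteristic polynomials `f i` (`IsAbelian`).

A number `ρ` comes from the finite set `Ω` of complex numbers (`From p Ω`) if it is not zero and a power
of it is the product of a power of a conjugate of an element of `Ω`, or of `1`, and of a power of `p`.
Let `Y` be **any** smooth projective variety over the field with `Q` elements such that the Frobenius
endomorphism of `Y` satisfies on the groups `H^i(A × Y, ℤ(j))`, `j ≥ 0`, nonzero polynomials with
integral coefficients whose roots come from `Ω` (`FrobeniusRoots T (From p Ω)`).

**The theorem: there is a set `E` of at most `|Ω|` lines, each of them in the space of the functions on
the complex embeddings of one of the fields `K i`, such that for all `a`, all `π i` whose slope vectors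
are not on the lines in `E`, all `f i`, `s`, `A` and all `Y` as above the statement below is true.**
So for one field `K` and a given `Y` all the Weil numbers in `K` are allowed, except those whose slope
vector is a multiple of one of at most `|Ω|` vectors. The result `EveryVarietyTimes` for this problem
is about **one** family of Weil numbers (possibly in infinitely many fields). Here the fields are given,
all the Weil numbers in them are considered at the same time, and `Ω` is any finite set.

Let `H^i(X, ℤ(j))` be the étale motivic cohomology groups. Let `H^i(X, ℤ^c(n)) = H^(2 d + i)(X, ℤ(d - n))` for the smooth projective `X` of dimension `d`. Then, if `Y`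
has the dimension `d`,

1. for all `n ≤ 0`: the groups `H^i(A × Y, ℤ^c(n))` are finitely generated for all `i ≤ - 2 n + 1` if and
   only if, for `0 ≤ k ≤ dim A`, the groups `H^i(Y, ℤ^c(n - k))` are finitely generated for all
   `i ≤ - 2 (n - k) + 1`;
2. **question 1 (all `n < 0`) for `A × Y` is equivalent to question 1 for `Y`** (`FlachMorinProduct`).

The theorem is unconditional: no Tate, Beilinson or Parshin conjecture is assumed for `Y`, and `Y` need
not belong to the class of the varieties built from products of curves, for which the groups are known
to be finitely generated (Soulé, Geisser, Morin).

The framework: the Chow ring and the ring of correspondences of `A`, with rational coefficients, and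
the cohomology of `A` (with coefficients in any field of characteristic zero which contains the
Frobenius eigenvalues), with the formal properties and the theorems of Tate on divisors and of Kimura
on the nilpotence of homologically trivial correspondences (`AbelianData`, `IsAbelian`); the Chow ring
and the correspondences with integral coefficients (`IntegralData`, `IsIntegralData`); the étale
motivic cohomology groups `H^i(Y, ℤ(j))` and `H^i(A × Y, ℤ(j))`, `i` and `j` integers, with the products
with cycles on `A`, the push-forward from `A × Y` to `Y`, the operation of the correspondences from `A`
to `A` and the Frobenius endomorphism of `Y` (`IntTheory`, `IsIntGraded`, `IsIntAction`); the Frobenius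
endomorphism of `A × Y` acts as `Q ^ j` in weight `j ≥ 0`; the subgroups of the elements annihilated by
an integer `n ≠ 0` are finite (`IsFiniteTorsion`): they are quotients of étale cohomology groups with
finite coefficients. For negative `j` the groups are, by the usual convention, those of
`ℚ / ℤ(j)[-1]` without the part at `p`; nothing is assumed about them.

The proof is the one of helper68 for Weil-étale cohomology (MP_cb388a_ag): there are products `D t` of
`c t` divisor classes on `A` with a dual system `E t` for the intersection pairing; let `π` be the
projector given by them, and `N` a number such that the `N D t` and `N E t` are integral. For a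
suitable polynomial `P` with integral coefficients the integral correspondence
`Θ = (N ^ 2 - N ^ 2 π) P (F)` is homologically trivial, so that a multiple of a power of `Θ` is zero; and
`a (F) P (F)` is multiplication by an integer `N' ≠ 0` on `H^i(A × Y, ℤ(j))`. Since `Θ` vanishes on the
image of `π`, this shows that `B m = b ∑ N D t × (N E t)_* m` for all `m` in `H^i(A × Y, ℤ(j))`, with
integers `B ≠ 0` and `b`. So the kernel of the map `m ↦ ((N E t)_* m)` from `H^i(A × Y, ℤ(j))` to the sum
of the `H^(i - 2 c t)(Y, ℤ(j - c t))` is annihilated by `B`, hence finite, and the maps `n ↦ N D t × n`
have kernels annihilated by `N ^ 2`, which are finite as well.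

The lines (`V1168.EV.exists_lines_forall` of helper68): if a product of a number `ρ` from `Ω` and of roots
of the `f i`, no two of them complex conjugate, is a power of `q` up to a root of unity, then the slope
vector of one of the `π i` is on the line of a vector given by an element of `Ω`.
-/

set_option autoImplicit false

namespace Pool.Agent.Results.MP_c1eb4d_ag.ExceptionalSlopeLines

open NumberField Pool.Agent.V1168.EV Pool.Agent.V1168.BB Pool.Agent.H8EM

/-- **The conjecture of Flach and Morin for `A × Y` is equivalent to the one for `Y`, for all `Y` with Frobenius
eigenvalues from the finite set `Ω` and all abelian varieties `A` given by Weil numbers in the CM fields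
`K i` (with pair flips), with slope vectors outside of at most `|Ω|` lines.** -/
theorem result {p : ℕ} [Fact p.Prime] (ν : PadicAlgCl p ≃+* ℂ) {I : Type} [Finite I]
    (K : I → Type) [∀ i, Field (K i)] [∀ i, NumberField (K i)] [∀ i, IsCMField (K i)]
    (hK : PairFlips K) (Ω : Finset ℂ) :
    ∃ E : Finset (Σ i, ((K i →+* ℂ) → ℝ)), E.card ≤ Ω.card ∧
      ForAllOutside ν K (fun q f => EtaleTimes (From p Ω) q f fun T => FlachMorinProduct T) E := by
  obtain ⟨E, hE, h⟩ := exists_lines_forall ν K hK Ω
  exact ⟨E, hE, h _ fun q f hq hR => flachMorin_times hq hR⟩

end Pool.Agent.Results.MP_c1eb4d_ag.ExceptionalSlopeLines
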